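import Pool.Agent.KDT.StmtsZ

set_option autoImplicit false

namespace Pool.Agent.KDT.H36

open Polynomial H58Q Pool.Agent.SZT Pool.Agent.KDT.Z

theorem ztrd (hNRM : NrmStatement) (hAVO : AvoStatement) (hCPP : CppStatement)
    (hSUB : SubStatement) (hIRD : IrdStatement) (hRTL : RtlStatement) (hEMB : EmbStatement)
    (_hCMA : CmaStatement) : TrdStatement := by
  intro n
  obtain ⟨C0, hC0⟩ := hNRM (20 * n)
  refine ⟨max 1 C0, ?_⟩
  intro k U _ _ _ f g henv J _ th cl act Jk hJK q Φ hq hgen hΦ0 hΦn hzr t ht hrr hro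
  have := henv.kc
  have := henv.oc
  have := henv.ch
  have : CharZero U := charZero_of_injective_algebraMap (algebraMap k U).injective
  have hgm := henv.gm
  have hinj := (algebraMap k U).injective
  have hg4 : g.coeff 4 = algebraMap k U (f.coeff 4) := by rw [hgm, coeff_map]
  have hgmon : g.Monic := by rw [hgm]; exact henv.mo.map _
  have hgdeg : g.natDegree = 5 := by
    rw [hgm, natDegree_map]; exact henv.d5
  have hgsf : Squarefree g := by
    rw [hgm]
    have h1 : f.Separable := (PerfectField.separable_iff_squarefree).2 henv.sf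
    exact (h1.map).squarefree
  have hT : On g (emb U t) := (hEMB k U f g hgm t t).2.2.2.1.2 ht
  have htm : On f (ngv t) := (hEMB k U f g hgm t t).2.2.2.2.2.2 ht
  have hTm : On g (emb U (ngv t)) := (hEMB k U f g hgm (ngv t) (ngv t)).2.2.2.1.2 htm
  have hcomp := hJK.comp q (emb U t) hq hT hrr hro
  set q' := cmp (g.coeff 4) q (emb U t) with hq'def
  have hq' : On g q' := hcomp.1
  have hclq' : cl q + cl (emb U t) = cl q' := hcomp.2
  have hclt : cl (emb U t) ∈ Jk := (hJK.mem_k _).2 (Or.inr (Or.inr ⟨t, ht, hT, rfl⟩))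
  have hclm : cl (emb U (ngv t)) = - cl (emb U t) := by
    rw [← (hEMB k U f g hgm t t).2.2.2.2.2.1]
    exact (hJK.cl_ngv _ hT).2
  have hback : cl q' + cl (emb U (ngv t)) = cl q := by
    rw [hclm, ← hclq']; abel
  refine ⟨?_, ?_⟩
  · intro hn
    obtain ⟨t', ht', hqt'⟩ := hRTL k U f g henv q' hq' (not_not.2 hn)
    have h1 : cl q' ∈ Jk := by
      rw [hJK.mem_k]
      refine Or.inr (Or.inr ⟨t', ht', ?_, by rw [← hqt']⟩)
      rw [← hqt']; exact hq'
    have h2 : cl q ∈ Jk := by
      have : cl q = cl q' - cl (emb U t) := by rw [← hclq']; abel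
      rw [this]; exact Jk.sub_mem h1 hclt
    rcases (hJK.mem_k _).1 h2 with h | ⟨z, -, h⟩ | ⟨t'', ht'', hT'', h⟩
    · exact hJK.cl_ne q hq h
    · exact hJK.cl_th q z hq h
    · have h3 := hJK.cl_inj q _ hq hT'' h
      apply hgen
      rw [h3]
      exact ⟨⟨t'' 0, rfl⟩, ⟨t'' 1, rfl⟩⟩
  · have key : ∃ Φ0 : MvPolynomial (Fin 2) k, Φ0 ≠ 0 ∧ Φ0.totalDegree ≤ max 1 C0 ∧
        Zr Φ0 (q' 0) (q' 1) := by
      by_cases h0 : rr q' (emb U (ngv t)) = 0
      · have hroot : ∃ a : k, a ^ 2 - t 0 * a + t 1 = 0 := by
          have hd : (X ^ 2 - C (t 0) * X + C (t 1) : k[X]).degree ≠ 0 := by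
            have : (X ^ 2 - C (t 0) * X + C (t 1) : k[X]).degree = 2 := by
              compute_degree!
            rw [this]; decide
          obtain ⟨a, ha⟩ := IsAlgClosed.exists_root (X ^ 2 - C (t 0) * X + C (t 1) : k[X]) hd
          refine ⟨a, ?_⟩
          simpa [IsRoot] using ha
        obtain ⟨a, ha⟩ := hroot
        have hfac : (algebraMap k U a ^ 2 - q' 0 * algebraMap k U a + q' 1) *
            (algebraMap k U (t 0 - a) ^ 2 - q' 0 * algebraMap k U (t 0 - a) + q' 1) = 0 := by
          rw [← h0]
          have ha' : t 1 = t 0 * a - a ^ 2 := by linear_combination ha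
          have e0 : emb U (ngv t) 0 = algebraMap k U (t 0) := rfl
          have e1 : emb U (ngv t) 1 = algebraMap k U (t 1) := rfl
          rw [rr, e0, e1, ha', map_sub, map_sub, map_mul, map_pow]
          ring
        have hex : ∃ b : k, algebraMap k U b ^ 2 - q' 0 * algebraMap k U b + q' 1 = 0 := by
          rcases mul_eq_zero.1 hfac with h | h
          · exact ⟨_, h⟩
          · exact ⟨_, h⟩
        obtain ⟨b, hb⟩ := hex
        refine ⟨MvPolynomial.X 1 - MvPolynomial.C b * MvPolynomial.X 0 + MvPolynomial.C (b ^ 2),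
          ?_, ?_, ?_⟩
        · intro h
          have h2 := congrArg (MvPolynomial.eval ![(0 : k), 1 - b ^ 2]) h
          simp at h2
        · refine le_trans ?_ (le_max_left _ _)
          refine (MvPolynomial.totalDegree_add _ _).trans (max_le ?_ ?_)
          · refine (MvPolynomial.totalDegree_sub _ _).trans (max_le ?_ ?_)
            · rw [MvPolynomial.totalDegree_X]
            · refine (MvPolynomial.totalDegree_mul _ _).trans ?_
              rw [MvPolynomial.totalDegree_C, MvPolynomial.totalDegree_X]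
          · rw [MvPolynomial.totalDegree_C]; exact Nat.zero_le _
        · unfold Zr
          simp only [map_add, map_sub, map_mul, MvPolynomial.aeval_X, MvPolynomial.aeval_C,
            Matrix.cons_val_zero, Matrix.cons_val_one, map_pow]
          linear_combination hb
      · have hro' : ro q' (emb U (ngv t)) ≠ 0 := by
          intro h
          rcases hJK.exc q' _ hq' hTm h0 h with h | ⟨z, h⟩
          · rw [hback] at h; exact hJK.cl_ne q hq h
          · rw [hback] at h; exact hJK.cl_th q z hq h
        have hcomp' := hJK.comp q' (emb U (ngv t)) hq' hTm h0 hro'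
        have hqq : cmp (g.coeff 4) q' (emb U (ngv t)) = q := by
          apply hJK.cl_inj _ _ hcomp'.1 hq
          rw [← hcomp'.2, hback]
        obtain ⟨N, D, hN, hD, hND⟩ := hCPP k (f.coeff 4) (ngv t)
        obtain ⟨G, hG, hGe⟩ := hSUB 2 n 20 k Φ ![N 0, N 1] D hΦn
          (by intro i; fin_cases i
              · exact hN 0
              · exact hN 1) hD
        have hDq' : MvPolynomial.aeval q' D ≠ 0 := (hND U q').1.2 ⟨h0, hro'⟩
        have hGq' : MvPolynomial.aeval q' G = 0 := by
          rw [hGe U q' hDq']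
          have hfun : (fun i : Fin 2 => MvPolynomial.aeval q' ((![N 0, N 1] : Fin 2 → _) i) /
              MvPolynomial.aeval q' D) = ![q 0, q 1] := by
            funext i
            fin_cases i
            · show MvPolynomial.aeval q' (N 0) / MvPolynomial.aeval q' D = q 0
              rw [← (hND U q').2 hDq' 0, ← hg4, hqq]
            · show MvPolynomial.aeval q' (N 1) / MvPolynomial.aeval q' D = q 1
              rw [← (hND U q').2 hDq' 1, ← hg4, hqq]
          rw [hfun]
          have : MvPolynomial.aeval ![q 0, q 1] Φ = 0 := hzr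
          rw [this, mul_zero]
        have hmapne : MvPolynomial.map (algebraMap k U) Φ ≠ 0 := by
          intro h
          apply hΦ0
          apply MvPolynomial.map_injective _ hinj
          rw [h, map_zero]
        obtain ⟨x, hx, hxd, hxr, hxo, hxΦ⟩ := hAVO U g J th cl hgmon hgdeg hgsf hJK.toJG
          (MvPolynomial.map (algebraMap k U) Φ) hmapne (emb U (ngv t)) hTm
        have hDx : MvPolynomial.aeval x D ≠ 0 := (hND U x).1.2 ⟨hxr, hxo⟩
        have hGx : MvPolynomial.aeval x G ≠ 0 := by
          rw [hGe U x hDx]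
          refine mul_ne_zero (pow_ne_zero _ hDx) ?_
          have hfun : (fun i : Fin 2 => MvPolynomial.aeval x ((![N 0, N 1] : Fin 2 → _) i) /
              MvPolynomial.aeval x D) = ![cmp (g.coeff 4) x (emb U (ngv t)) 0,
                cmp (g.coeff 4) x (emb U (ngv t)) 1] := by
            funext i
            fin_cases i
            · show MvPolynomial.aeval x (N 0) / MvPolynomial.aeval x D = _
              rw [← (hND U x).2 hDx 0, ← hg4]; rfl
            · show MvPolynomial.aeval x (N 1) / MvPolynomial.aeval x D = _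
              rw [← (hND U x).2 hDx 1, ← hg4]; rfl
          rw [hfun]
          rw [MvPolynomial.eval_map] at hxΦ
          exact hxΦ
        obtain ⟨Θ, hΘ0, hΘd, hΘ⟩ := hC0 k f henv.mo henv.d5 henv.sf G
          (hG.trans (le_refl _)) ⟨U, inferInstance, algebraMap k U, x, by rw [← hgm]; exact hx,
            hxd, hGx⟩
        refine ⟨Θ, hΘ0, hΘd.trans (le_max_right _ _), ?_⟩
        exact hΘ U (algebraMap k U) q' (by rw [← hgm]; exact hq') hGq'
    obtain ⟨Φ0, h1, h2, h3⟩ := key
    obtain ⟨Φ', h4, -, h5, h6⟩ := hIRD.2 k U (q' 0) (q' 1) Φ0 h1 h3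
    exact ⟨Φ', h4, h5.trans h2, h6⟩

end Pool.Agent.KDT.H36
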